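import Pool.Agent.L5helper11.OM.G
import Pool.Agent.L5helper50.OM.J1
import Pool.Agent.L5helper21.OM.J2

/-!
# An exact formula for `α = limsup |S(x)|/x`, `S(x) = ∑_{n ≤ x} (-2)^Ω(n)`

Let `s_n = 1 + (2n+1) π i / log 2` and
`c_n = 4 / (9 log 2 · s_n ζ(s_n)²) · ∏_{p ≥ 3} (1 - 3 p^(-2 s_n) + 2 p^(-3 s_n))⁻¹` (absolutely convergent).  Then `α`
is the limit, and the supremum over `N ≥ 1`, of the maxima of the trigonometric polynomials
`σ_N(θ) = 2 ∑_{n < N} (1 - (2n+1)/(2N)) Re (c_n e^(i π (2n+1) θ))`.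

Proof.  `S(2^k y)/(2^k y)`, `1 ≤ y < 2`, tends to `± F(y)` uniformly, with a right continuous function `F`, and `α` is
the supremum of `|F|`.  The `c_n` are the Fourier coefficients of `F(2^u)` with respect to `e^(i π (2n+1) u)` (mean
values of the Mellin transform of `S`, whose Dirichlet series has simple poles at the `s_n`), and `σ_N` is the Fejér
mean.
-/

set_option autoImplicit false

open Finset ArithmeticFunction Filter Topology

namespace Pool.Agent.Results.MP_5db4ad_nt.ExactFormula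

/-- `S(x) = ∑_{1 ≤ n ≤ x} (-2)^Ω(n)` -/
noncomputable def S (x : ℝ) : ℝ := ∑ n ∈ Icc 1 ⌊x⌋₊, (-2 : ℝ) ^ (cardFactors n)

/-- `α = limsup |S(x)|/x ∈ [0, ∞]` -/
noncomputable def alpha : EReal := limsup (fun x : ℝ => ((|S x| / x : ℝ) : EReal)) atTop

/-- `s_n = 1 + (2n+1) π i / log 2` -/
noncomputable def s (n : ℕ) : ℂ := 1 + (((2 * n + 1) * Real.pi / Real.log 2 : ℝ) : ℂ) * Complex.I

/-- `c` is the sequence of the coefficients, given by Euler products -/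
def IsCoeff (c : ℕ → ℂ) : Prop := ∀ n : ℕ, Tendsto (fun K : ℕ =>
  4 / (9 * (Real.log 2 : ℂ) * s n * riemannZeta (s n) ^ 2) * ∏ p ∈ (Ico 3 K).filter Nat.Prime,
    (1 - 3 * ((p : ℂ) ^ (-(s n))) ^ 2 + 2 * ((p : ℂ) ^ (-(s n))) ^ 3)⁻¹) atTop (𝓝 (c n))

/-- `σ_N(θ) = 2 ∑_{n < N} (1 - (2n+1)/(2N)) Re (c_n e^(i π (2n+1) θ))` -/
noncomputable def sigma (c : ℕ → ℂ) (N : ℕ) (θ : ℝ) : ℝ :=
  ∑ n ∈ range N, 2 * (1 - (2 * (n : ℝ) + 1) / (2 * N)) *
    (c n * Complex.exp (((Real.pi * (2 * n + 1) * θ : ℝ) : ℂ) * Complex.I)).re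

theorem result : ∃ c : ℕ → ℂ, IsCoeff c ∧
    (∀ N : ℕ, 1 ≤ N → ∀ θ : ℝ, ((|sigma c N θ| : ℝ) : EReal) ≤ alpha) ∧
    Tendsto (fun N : ℕ => ((sSup (Set.range fun θ : ℝ => |sigma c N θ|) : ℝ) : EReal)) atTop
      (𝓝 alpha) := by
  have ha : alpha = ((L5helper11.OM.M : ℝ) : EReal) := L5helper11.OM.alpha_eq
  refine ⟨H295R3.W.ck, fun n => ?_, fun N hN θ => ?_, ?_⟩
  · exact L5helper11.OM.ck_lim n
  · rw [ha, EReal.coe_le_coe_iff]
    exact L5helper11.OM.sg_le N hN θ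
  · rw [ha]
    exact (continuous_coe_real_ereal.tendsto _).comp
      (L5helper11.OM.M_formula L5helper11.OM.j1 L5helper21.OM.j2)

end Pool.Agent.Results.MP_5db4ad_nt.ExactFormula
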