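import Pool.Agent.L5helper11.OM.D

/-!
# The limit function of `S(x)/x`, `S(x) = ∑_{n ≤ x} (-2)^Ω(n)`

Let `U(z)` be the sum of `(-2)^Ω(n)` over the odd `n ≤ z`.  Since `S(x) = U(x) - 2 S(x/2)`, and since
`U(z) = O(z / (log z)^A)` for every `A` (from the prime number theorem for the Möbius function), the quotient
`S(2^k y)/(2^k y)`, `1 ≤ y < 2`, approaches `(-1)^k F(y)`, faster than every power of `1/k` and uniformly in `y`, for
`F(y) = ∑_i (-1)^i U(2^i y)/(2^i y)`.  Hence `α = limsup |S(x)|/x` is the supremum of `|F|` over one period `[1, 2)`,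
it is finite, it is the limit of the suprema of `|S(x)|/x` over the blocks `[2^k, 2^(k+1))` with that rate, and
`limsup S(x)/x = α`, `liminf S(x)/x = -α`.
-/

set_option autoImplicit false

open Finset ArithmeticFunction Filter Topology

namespace Pool.Agent.Results.MP_5db4ad_nt.LimitFunction

/-- `S(x) = ∑_{1 ≤ n ≤ x} (-2)^Ω(n)` -/
noncomputable def S (x : ℝ) : ℝ := ∑ n ∈ Icc 1 ⌊x⌋₊, (-2 : ℝ) ^ (cardFactors n)

/-- the same sum over the odd `n` -/
noncomputable def U (x : ℝ) : ℝ := ∑ n ∈ (Icc 1 ⌊x⌋₊).filter Odd, (-2 : ℝ) ^ (cardFactors n)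

/-- `α = limsup |S(x)|/x ∈ [0, ∞]` -/
noncomputable def alpha : EReal := limsup (fun x : ℝ => ((|S x| / x : ℝ) : EReal)) atTop

theorem result : ∃ F : ℝ → ℝ,
    (∀ y ∈ Set.Ico (1 : ℝ) 2, HasSum (fun i : ℕ => (-1 : ℝ) ^ i * (U (2 ^ i * y) / (2 ^ i * y))) (F y)) ∧
    (∀ A : ℕ, ∃ C : ℝ, 0 < C ∧ ∀ k : ℕ, ∀ y ∈ Set.Ico (1 : ℝ) 2,
      |S (2 ^ k * y) / (2 ^ k * y) - (-1) ^ k * F y| ≤ C / ((k : ℝ) + 1) ^ A) ∧
    (∀ y ∈ Set.Ico (1 : ℝ) 2, ContinuousWithinAt F (Set.Ici y) y) ∧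
    BddAbove ((fun y => |F y|) '' Set.Ico 1 2) ∧
    alpha = ((sSup ((fun y => |F y|) '' Set.Ico 1 2) : ℝ) : EReal) ∧
    (∀ A : ℕ, ∃ C : ℝ, 0 < C ∧ ∀ k : ℕ,
      |sSup ((fun x => |S x| / x) '' Set.Ico (2 ^ k) (2 ^ (k + 1))) -
        sSup ((fun y => |F y|) '' Set.Ico 1 2)| ≤ C / ((k : ℝ) + 1) ^ A) ∧
    limsup (fun x : ℝ => ((S x / x : ℝ) : EReal)) atTop = alpha ∧
    liminf (fun x : ℝ => ((S x / x : ℝ) : EReal)) atTop = -alpha := by
  have hM : sSup ((fun y => |L5helper11.OM.F0 y|) '' Set.Ico 1 2) = L5helper11.OM.M := by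
    rw [L5helper11.OM.M]
    congr 1
    refine Set.image_congr fun y hy => ?_
    rw [L5helper11.OM.F0, Set.indicator_of_mem hy]
  have hF : ∀ y ∈ Set.Ico (1 : ℝ) 2, L5helper11.OM.F0 y = L5helper11.OM.F y := fun y hy => by
    rw [L5helper11.OM.F0, Set.indicator_of_mem hy]
  refine ⟨L5helper11.OM.F0, ?_, ?_, ?_, ?_, ?_, ?_, ?_, ?_⟩
  · intro y hy
    rw [hF y hy]
    exact (L5helper11.OM.F_summable hy.1).hasSum
  · intro A
    obtain ⟨C, hC, h⟩ := L5helper11.OM.F_rate A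
    refine ⟨C, hC, fun k y hy => ?_⟩
    rw [hF y hy]
    exact h k y hy.1 hy.2
  · intro y hy
    exact L5helper11.OM.F0_right hy.1 hy.2
  · refine ⟨L5helper11.OM.M, ?_⟩
    rintro _ ⟨y, _, rfl⟩
    exact L5helper11.OM.F0_abs_le y
  · rw [hM]
    exact L5helper11.OM.alpha_eq
  · intro A
    rw [hM]
    exact L5helper11.OM.block_rate A
  · have h1 := L5helper11.OM.signed_eq 1 (Or.inl rfl)
    simp only [one_mul] at h1
    exact h1.trans L5helper11.OM.alpha_eq.symm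
  · have h1 := L5helper11.OM.signed_eq (-1) (Or.inr rfl)
    have h2 : limsup (fun x : ℝ => -((S x / x : ℝ) : EReal)) atTop = alpha := by
      refine Eq.trans ?_ (h1.trans L5helper11.OM.alpha_eq.symm)
      congr 1
      funext x
      rw [neg_one_mul, EReal.coe_neg]
      rfl
    have h3 := EReal.limsup_neg (v := fun x : ℝ => ((S x / x : ℝ) : EReal)) (f := atTop)
    have h4 : limsup (fun x : ℝ => -((S x / x : ℝ) : EReal)) atTop =
        -liminf (fun x : ℝ => ((S x / x : ℝ) : EReal)) atTop := h3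
    rw [← h2, h4, neg_neg]

end Pool.Agent.Results.MP_5db4ad_nt.LimitFunction
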